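import Pool.Agent.W14.US.Stm

set_option autoImplicit false
open Complex MeasureTheory
open scoped ContDiff

namespace Pool.Agent.W814.US
open Pool.Agent.W14.US

theorem iter : S_DER → S_CALC → S_STEP → S_ITER := by
  intro hD hC hS
  let β : ContDiffBump (0 : ℂ) := ⟨1, 2, one_pos, one_lt_two⟩
  let φ : ℂ → ℂ := fun z => ((β z : ℝ) : ℂ)
  have hφs : ContDiff ℝ ∞ φ := Complex.ofRealCLM.contDiff.comp β.contDiff
  have hφc : HasCompactSupport φ := by
    have h1 : HasCompactSupport (fun z => β z) := β.hasCompactSupport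
    exact h1.comp_left (g := fun x : ℝ => (x : ℂ)) Complex.ofReal_zero
  have hφ : Ad φ := ⟨hφs, hφc⟩
  have hφ0 : φ 0 = 1 := by
    have h1 : β 0 = 1 := β.one_of_mem_closedBall (by simp [β])
    show ((β 0 : ℝ) : ℂ) = 1
    rw [h1]; simp
  have hφ2 : ∀ z, 2 ≤ ‖z‖ → φ z = 0 := by
    intro z hz
    have h1 : β z = 0 := by
      apply β.zero_of_le_dist
      rw [dist_zero_right]
      exact hz
    show ((β z : ℝ) : ℂ) = 0
    rw [h1]; simp
  have hc1 := hC false (fun _ => 0) φ contDiff_const hφ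
  have hk0 : Ad (db φ) := hc1.1
  have hdφ : Ad (dd φ) := hc1.2.1
  have hT : T (db φ) = φ := funext fun z => ((hD φ hφ).2 z).1
  have hTd : ∀ z, T (dd (db φ)) z = dd φ z := by
    intro z
    have h1 := ((hD (db φ) hk0).2 z).2.2
    rw [hT] at h1
    exact h1.symm
  obtain ⟨C1, hC1⟩ := hdφ.2.exists_bound_of_continuous hdφ.1.continuous
  obtain ⟨C2, hC2⟩ := hk0.2.exists_bound_of_continuous hk0.1.continuous
  obtain ⟨e, he⟩ := exists_surjective_nat (Bool × ℚ)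
  let P : ℕ → (ℂ → ℂ) → Prop := fun n k => Ad k ∧
    ∀ z, ‖T (dd k) z‖ + ‖k z‖ ≤ C1 + C2 + 1 / 4 - (1 / 4) * (1 / 2) ^ n
  have step : ∀ (n : ℕ) (k : {k : ℂ → ℂ // P n k}), ∃ k' : {k : ℂ → ℂ // P (n + 1) k},
      (∀ z, k.1 z = 0 → k'.1 z = 0) ∧
      (∃ s > 0, ∀ z, |co (e n).1 z - ((e n).2 : ℝ)| < s → k'.1 z = 0) ∧
      (∀ z, ‖T k'.1 z - T k.1 z‖ ≤ (1 / 8) * (1 / 2) ^ n) := by
    intro n k
    obtain ⟨k', h1, h2, h3, h4, h5⟩ := hS k.1 (C1 + C2 + 1 / 4 - (1 / 4) * (1 / 2) ^ n)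
      ((1 / 8) * (1 / 2) ^ n) ((e n).2 : ℝ) (e n).1 k.2.1 (by positivity) k.2.2
    refine ⟨⟨k', h1, ?_⟩, h2, h3, h4⟩
    intro z
    have h6 := h5 z
    have h7 : (1 / 2 : ℝ) ^ (n + 1) = (1 / 2) ^ n * (1 / 2) := pow_succ _ _
    rw [h7]
    linarith
  choose f hf1 hf2 hf3 using step
  have hP0 : P 0 (db φ) := by
    refine ⟨hk0, ?_⟩
    intro z
    rw [hTd z]
    have h1 := hC1 z
    have h2 := hC2 z
    norm_num
    linarith
  let sq : ∀ n : ℕ, {k : ℂ → ℂ // P n k} := fun n =>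
    Nat.rec (motive := fun n => {k : ℂ → ℂ // P n k}) ⟨db φ, hP0⟩ (fun n k => f n k) n
  have hsq0 : (sq 0).1 = db φ := rfl
  have hsq : ∀ n, sq (n + 1) = f n (sq n) := fun n => rfl
  refine ⟨fun n => (sq n).1, C1 + C2 + 1 / 4, fun n => (sq n).2.1, ?_, ?_, ?_, ?_, ?_⟩
  · intro n z
    have h1 := (sq n).2.2 z
    have h2 : (0 : ℝ) ≤ (1 / 4) * (1 / 2) ^ n := by positivity
    linarith
  · intro n z
    show ‖T (sq (n + 1)).1 z - T (sq n).1 z‖ ≤ _
    rw [hsq n]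
    exact hf3 n (sq n) z
  · intro b q
    obtain ⟨m, hm⟩ := he (b, q)
    obtain ⟨s, hs, hs1⟩ := hf2 m (sq m)
    refine ⟨s, hs, m + 1, ?_⟩
    intro n hn z hz
    have hb : (e m).1 = b := by rw [hm]
    have hq : (e m).2 = q := by rw [hm]
    rw [hb, hq] at hs1
    induction n, hn using Nat.le_induction with
    | base =>
      show (sq (m + 1)).1 z = 0
      rw [hsq m]
      exact hs1 z hz
    | succ n hn ih =>
      show (sq (n + 1)).1 z = 0
      rw [hsq n]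
      exact hf1 n (sq n) z ih
  · show T (sq 0).1 0 = 1
    rw [hsq0, hT]
    exact hφ0
  · intro z hz
    show T (sq 0).1 z = 0
    rw [hsq0, hT]
    exact hφ2 z hz

end Pool.Agent.W814.US
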